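import Pool.Agent.H29.Areas.Lower
import Pool.Agent.H29.Areas.Upper

/-!
# MP_69f562_co: `D'(n)` grows like a power of `n`

`D'(n)`, the greatest `k` such that every generic arrangement of `n` lines contains `k` lines
with distinct triangle areas, satisfies `n ^ (1/10) / 9 ≤ D'(n) ≤ 2 √n + 1`.
-/

namespace Pool.Agent.Results.MP_69f562_co.PolynomialBounds

open Pool.Agent.H29.Areas Finset

lemma mono {S S' : Finset (Set (ℝ × ℝ))} (h : S' ⊆ S) (hS : DistinctAreas S) :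
    DistinctAreas S' := by
  intro ℓ1 g1 ℓ2 g2 ℓ3 g3 ℓ4 g4 ℓ5 g5 ℓ6 g6
  exact hS ℓ1 (h g1) ℓ2 (h g2) ℓ3 (h g3) ℓ4 (h g4) ℓ5 (h g5) ℓ6 (h g6)

/-- For every `n ≥ 3` the number `D'(n)` exists and
`n ^ (1/10) / 9 ≤ D'(n) ≤ 2 √n + 1`. -/
theorem result (n : ℕ) (hn : 3 ≤ n) :
    ∃ d : ℕ, IsGreatest (DSet n) d ∧
      (n : ℝ) ^ (1 / 10 : ℝ) / 9 ≤ d ∧ (d : ℝ) ≤ 2 * Real.sqrt n + 1 := by
  classical
  have hub : ∀ k ∈ DSet n, (k : ℝ) ≤ 2 * Real.sqrt n + 1 := by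
    intro k hk
    obtain ⟨S, hS1, hS2, hS3⟩ := hk ((Icc 1 n).image tg) (tg_generic n)
      (by rw [card_image_of_injective _ tg_inj]; simp)
    rw [← hS2]
    exact upper hS1 hS3
  have hbdd : BddAbove (DSet n) := by
    refine ⟨⌊2 * Real.sqrt n + 1⌋₊, fun k hk => ?_⟩
    exact Nat.le_floor (hub k hk)
  have hlow : ⌈(n : ℝ) ^ (1 / 10 : ℝ) / 9⌉₊ ∈ DSet n := by
    intro L hL hc
    obtain ⟨S, hS1, hS2, hS3⟩ := lower hL (by omega)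
    rw [hc] at hS2
    obtain ⟨S', h1, h2⟩ := exists_subset_card_eq (Nat.ceil_le.2 hS2)
    exact ⟨S', h1.trans hS1, h2, mono h1 hS3⟩
  have hmem := Nat.sSup_mem ⟨_, hlow⟩ hbdd
  refine ⟨sSup (DSet n), ⟨hmem, fun k hk => le_csSup hbdd hk⟩, ?_, hub _ hmem⟩
  exact (Nat.le_ceil _).trans (by exact_mod_cast le_csSup hbdd hlow)

end Pool.Agent.Results.MP_69f562_co.PolynomialBounds
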